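import Pool.Agent.J6H9.PL.Stm

/-!
# The Moebius flow on the spheres, switched off near the origin (`S_Sig`)
-/

set_option autoImplicit false

open Filter Topology
open scoped InnerProductSpace
open Pool.Agent.J6H45.CoordRestr Pool.Agent.J6H9.PL

namespace Pool.Agent.J6H24.PL.Sig

variable {n : ℕ}

/-- the parameter as a function of the radius -/
noncomputable def bb (β δ r : ℝ) : ℝ := β * Real.smoothTransition (2 * r / δ - 1)

/-- the map -/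
noncomputable def F (p : E n) (β δ : ℝ) (x : E n) : E n :=
  (‖x‖ / (‖x‖ + bb β δ ‖x‖ * ⟪p, x⟫_ℝ)) •
    (√(1 - bb β δ ‖x‖ ^ 2) • (x - ⟪p, x⟫_ℝ • p) + (⟪p, x⟫_ℝ + bb β δ ‖x‖ * ‖x‖) • p)

theorem abs_bb_lt {β : ℝ} (hβ : |β| < 1) (δ r : ℝ) : |bb β δ r| < 1 := by
  unfold bb
  rw [abs_mul, abs_of_nonneg (Real.smoothTransition.nonneg _)]
  have h1 := Real.smoothTransition.le_one (2 * r / δ - 1)
  have h2 := Real.smoothTransition.nonneg (2 * r / δ - 1)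
  nlinarith [abs_nonneg β]

theorem bb_neg (β δ r : ℝ) : bb (-β) δ r = -bb β δ r := by
  unfold bb
  ring

theorem bb_small {β δ r : ℝ} (hδ : 0 < δ) (h : r ≤ δ / 2) : bb β δ r = 0 := by
  unfold bb
  rw [Real.smoothTransition.zero_of_nonpos, mul_zero]
  rw [sub_nonpos, div_le_one hδ]
  linarith

theorem bb_large {β δ r : ℝ} (hδ : 0 < δ) (h : δ ≤ r) : bb β δ r = β := by
  unfold bb
  rw [Real.smoothTransition.one_of_one_le, mul_one]
  rw [le_sub_iff_add_le, le_div_iff₀ hδ]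
  linarith

section alg

variable {p x : E n} {b : ℝ}

theorem D_pos (hp : ‖p‖ = 1) (hx : x ≠ 0) (hb : |b| < 1) : 0 < ‖x‖ + b * ⟪p, x⟫_ℝ := by
  have h1 := abs_real_inner_le_norm p x
  rw [hp, one_mul] at h1
  have h2 : 0 < ‖x‖ := norm_pos_iff.2 hx
  have h3 : |b * ⟪p, x⟫_ℝ| < ‖x‖ := by
    rw [abs_mul]
    calc |b| * |⟪p, x⟫_ℝ| ≤ |b| * ‖x‖ := mul_le_mul_of_nonneg_left h1 (abs_nonneg _)
      _ < 1 * ‖x‖ := mul_lt_mul_of_pos_right hb h2
      _ = ‖x‖ := one_mul _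
  have h4 := neg_abs_le (b * ⟪p, x⟫_ℝ)
  linarith

theorem sq_lt_one (hb : |b| < 1) : 0 < 1 - b ^ 2 := by
  have := (sq_lt_one_iff_abs_lt_one b).2 hb
  linarith

/-- the map for a fixed parameter -/
noncomputable def G (p : E n) (b : ℝ) (x : E n) : E n :=
  (‖x‖ / (‖x‖ + b * ⟪p, x⟫_ℝ)) •
    (√(1 - b ^ 2) • (x - ⟪p, x⟫_ℝ • p) + (⟪p, x⟫_ℝ + b * ‖x‖) • p)

theorem inner_pp (hp : ‖p‖ = 1) : ⟪p, p⟫_ℝ = 1 := by
  rw [real_inner_self_eq_norm_sq, hp, one_pow]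

theorem inner_G (hp : ‖p‖ = 1) :
    ⟪p, G p b x⟫_ℝ = ‖x‖ / (‖x‖ + b * ⟪p, x⟫_ℝ) * (⟪p, x⟫_ℝ + b * ‖x‖) := by
  unfold G
  rw [inner_smul_right, inner_add_right, inner_smul_right, inner_sub_right, inner_smul_right,
    inner_smul_right, inner_pp hp]
  ring

theorem norm_G (hp : ‖p‖ = 1) (hx : x ≠ 0) (hb : |b| < 1) : ‖G p b x‖ = ‖x‖ := by
  have hD := D_pos hp hx hb
  have hw := sq_lt_one hb
  have h1 : ‖√(1 - b ^ 2) • (x - ⟪p, x⟫_ℝ • p) + (⟪p, x⟫_ℝ + b * ‖x‖) • p‖ ^ 2 =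
      (‖x‖ + b * ⟪p, x⟫_ℝ) ^ 2 := by
    have h2 : ⟪x - ⟪p, x⟫_ℝ • p, p⟫_ℝ = 0 := by
      rw [inner_sub_left, real_inner_smul_left, inner_pp hp, real_inner_comm]
      ring
    have h3 : ‖x - ⟪p, x⟫_ℝ • p‖ ^ 2 = ‖x‖ ^ 2 - ⟪p, x⟫_ℝ ^ 2 := by
      rw [norm_sub_sq_real, inner_smul_right, norm_smul, hp, real_inner_comm, mul_one,
        Real.norm_eq_abs, sq_abs]
      ring
    rw [norm_add_sq_real, norm_smul, norm_smul, real_inner_smul_left, inner_smul_right, h2, hp,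
      mul_pow, mul_pow, h3, Real.norm_eq_abs, Real.norm_eq_abs, sq_abs, sq_abs, Real.sq_sqrt hw.le]
    ring
  have h4 : ‖√(1 - b ^ 2) • (x - ⟪p, x⟫_ℝ • p) + (⟪p, x⟫_ℝ + b * ‖x‖) • p‖ =
      ‖x‖ + b * ⟪p, x⟫_ℝ := (pow_left_inj₀ (norm_nonneg _) hD.le two_ne_zero).1 h1
  unfold G
  rw [norm_smul, h4, Real.norm_eq_abs, abs_of_nonneg (div_nonneg (norm_nonneg _) hD.le),
    div_mul_cancel₀ _ hD.ne']

theorem G_G (hp : ‖p‖ = 1) (hx : x ≠ 0) (hb : |b| < 1) : G p (-b) (G p b x) = x := by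
  have hD := D_pos hp hx hb
  have hw := sq_lt_one hb
  have hr : 0 < ‖x‖ := norm_pos_iff.2 hx
  have hn := norm_G hp hx hb
  have hi := inner_G (b := b) (x := x) hp
  set D := ‖x‖ + b * ⟪p, x⟫_ℝ with hDdef
  set r := ‖x‖ with hrdef
  set s := ⟪p, x⟫_ℝ with hs
  have hy : G p b x - ⟪p, G p b x⟫_ℝ • p = (r / D * √(1 - b ^ 2)) • (x - s • p) := by
    rw [hi]
    show (r / D) • (√(1 - b ^ 2) • (x - s • p) + (s + b * r) • p) - _ = _
    module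
  have hD' : r + -b * ⟪p, G p b x⟫_ℝ = r ^ 2 * (1 - b ^ 2) / D := by
    rw [hi]
    field_simp
    rw [hDdef]
    ring
  have ht : ⟪p, G p b x⟫_ℝ + -b * r = r * s * (1 - b ^ 2) / D := by
    rw [hi]
    field_simp
    rw [hDdef]
    ring
  have e : G p (-b) (G p b x) = (‖G p b x‖ / (‖G p b x‖ + -b * ⟪p, G p b x⟫_ℝ)) •
    (√(1 - (-b) ^ 2) • (G p b x - ⟪p, G p b x⟫_ℝ • p) +
      (⟪p, G p b x⟫_ℝ + -b * ‖G p b x‖) • p) := rfl
  rw [e, hn, hD', ht, hy, neg_sq, smul_add, smul_smul, smul_smul, smul_smul]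
  have e1 : r / (r ^ 2 * (1 - b ^ 2) / D) * (√(1 - b ^ 2) * (r / D * √(1 - b ^ 2))) = 1 := by
    have h1 : √(1 - b ^ 2) * (r / D * √(1 - b ^ 2)) = (1 - b ^ 2) * (r / D) := by
      have := Real.mul_self_sqrt hw.le
      linear_combination (r / D) * this
    rw [h1]
    field_simp
  have e2 : r / (r ^ 2 * (1 - b ^ 2) / D) * (r * s * (1 - b ^ 2) / D) = s := by
    field_simp
  rw [e2]
  have e3 : r / (r ^ 2 * (1 - b ^ 2) / D) * √(1 - b ^ 2) * (r / D * √(1 - b ^ 2)) = 1 := by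
    rw [mul_assoc]; exact e1
  first
    | rw [e1, one_smul, sub_add_cancel]
    | rw [e3, one_smul, sub_add_cancel]

end alg

theorem F_eq (p : E n) (β δ : ℝ) (x : E n) : F p β δ x = G p (bb β δ ‖x‖) x := rfl

theorem F_zero (p : E n) (β δ : ℝ) : F p β δ 0 = 0 := by
  unfold F
  simp

theorem norm_F {p : E n} (hp : ‖p‖ = 1) {β : ℝ} (hβ : |β| < 1) (δ : ℝ) (x : E n) :
    ‖F p β δ x‖ = ‖x‖ := by
  by_cases hx : x = 0
  · rw [hx, F_zero]
  · rw [F_eq, norm_G hp hx (abs_bb_lt hβ _ _)]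

theorem F_F {p : E n} (hp : ‖p‖ = 1) {β : ℝ} (hβ : |β| < 1) (δ : ℝ) (x : E n) :
    F p (-β) δ (F p β δ x) = x := by
  by_cases hx : x = 0
  · rw [hx, F_zero, F_zero]
  · rw [F_eq p (-β), norm_F hp hβ, bb_neg, F_eq, G_G hp hx (abs_bb_lt hβ _ _)]

theorem F_id {p : E n} {β δ : ℝ} (hδ : 0 < δ) {x : E n} (hx : ‖x‖ ≤ δ / 2) : F p β δ x = x := by
  by_cases h0 : x = 0
  · rw [h0, F_zero]
  · unfold F
    have hr : ‖x‖ ≠ 0 := norm_ne_zero_iff.2 h0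
    rw [bb_small hδ hx]
    simp [hr]

theorem F_near {p : E n} {β δ : ℝ} (hδ : 0 < δ) : ∀ᶠ x in 𝓝 (0 : E n), F p β δ x = x := by
  filter_upwards [Metric.ball_mem_nhds (0 : E n) (half_pos hδ)] with x hx
  rw [Metric.mem_ball, dist_zero_right] at hx
  exact F_id hδ hx.le

theorem F_contDiff {p : E n} (hp : ‖p‖ = 1) {β δ : ℝ} (hβ : |β| < 1) (hδ : 0 < δ) :
    ContDiff ℝ 1 (F p β δ) := by
  rw [contDiff_iff_contDiffAt]
  intro x
  by_cases hx : x = 0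
  · rw [hx]
    exact contDiffAt_id.congr_of_eventuallyEq (F_near hδ)
  · have hr : ContDiffAt ℝ 1 (fun y : E n => ‖y‖) x := contDiffAt_norm ℝ hx
    have hs : ContDiffAt ℝ 1 (fun y : E n => ⟪p, y⟫_ℝ) x := contDiffAt_const.inner ℝ contDiffAt_id
    have hb : ContDiffAt ℝ 1 (fun y : E n => bb β δ ‖y‖) x := by
      unfold bb
      refine contDiffAt_const.mul ?_
      have h1 : ContDiffAt ℝ 1 (fun y : E n => 2 * ‖y‖ / δ - 1) x :=
        ((contDiffAt_const.mul hr).div_const δ).sub contDiffAt_const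
      exact (Real.smoothTransition.contDiff.contDiffAt).comp x h1
    have hD : ‖x‖ + bb β δ ‖x‖ * ⟪p, x⟫_ℝ ≠ 0 := (D_pos hp hx (abs_bb_lt hβ _ _)).ne'
    have hw : 1 - bb β δ ‖x‖ ^ 2 ≠ 0 := (sq_lt_one (abs_bb_lt hβ _ _)).ne'
    have h1 : ContDiffAt ℝ 1 (fun y : E n => ‖y‖ / (‖y‖ + bb β δ ‖y‖ * ⟪p, y⟫_ℝ)) x :=
      hr.div (hr.add (hb.mul hs)) hD
    have h2 : ContDiffAt ℝ 1 (fun y : E n => √(1 - bb β δ ‖y‖ ^ 2)) x :=
      (contDiffAt_const.sub (hb.pow 2)).sqrt hw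
    exact h1.smul ((h2.smul (contDiffAt_id.sub (hs.smul contDiffAt_const))).add
      ((hs.add (hb.mul hr)).smul contDiffAt_const))

/-- `S_Sig` -/
theorem main : S_Sig := by
  intro n p hp β δ hβ0 hβ1 hδ
  have hβ : |β| < 1 := by rw [abs_of_pos hβ0]; exact hβ1
  have hβ' : |-β| < 1 := by rw [abs_neg]; exact hβ
  have hc := F_contDiff (p := p) hp hβ hδ
  have hc' := F_contDiff (p := p) hp hβ' hδ
  refine ⟨{ toFun := F p β δ
            invFun := F p (-β) δ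
            left_inv := F_F hp hβ δ
            right_inv := fun x => by
              have := F_F hp hβ' δ x
              rwa [neg_neg] at this
            continuous_toFun := hc.continuous
            continuous_invFun := hc'.continuous }, ⟨hc, hc'⟩, norm_F hp hβ δ, F_near hδ, ?_⟩
  intro x hx
  have hx0 : x ≠ 0 := by
    rintro rfl
    rw [norm_zero] at hx
    linarith
  have hD := D_pos hp hx0 hβ
  show ⟪p, F p β δ x⟫_ℝ * _ = _
  rw [F_eq, bb_large hδ hx, inner_G hp]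
  field_simp

end Pool.Agent.J6H24.PL.Sig
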